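import Pool.Agent.MQG.StmtsU
import Pool.Agent.MQG.StmtsB

/-!
# Squad MQG, row LFT: the representation given by an inequality of norms
-/

set_option autoImplicit false

namespace Pool.Agent.MQG.H55

open scoped InnerProductSpace InnerProduct Topology
open Complex Filter

variable {ι κ κ' : Type}

/-- two index types as a family -/
def K2 (κ κ' : Type) : Bool → Type
  | true => κ
  | false => κ'

/-- two operators as a family -/
def T2 (a : Op κ) (b : Op κ') : ∀ p, Op (K2 κ κ' p)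
  | true => a
  | false => b

/-- two operators on tensor products as a family -/
def U2 (a : Op (κ × ι)) (b : Op (κ' × ι)) : ∀ p, Op (K2 κ κ' p × ι)
  | true => a
  | false => b

/-- the direct sum of two operators as an isometric *-homomorphism -/
theorem exists_delta (dsx : DsxStmt) (dsa : DsaStmt) (dsn : DsnStmt) (κ κ' : Type) :
    ∃ Δ : (Op κ × Op κ') →⋆ₙₐ[ℂ] Op (Σ p, K2 κ κ' p),
      (∀ c, ‖Δ c‖ = ‖c‖) ∧ ∀ c, IsDS (Equiv.refl _) (Δ c) (T2 c.1 c.2) := by
  have hex : ∀ c : Op κ × Op κ', ∃ S : Op (Σ p, K2 κ κ' p),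
      ‖S‖ ≤ ‖c‖ ∧ IsDS (Equiv.refl _) S (T2 c.1 c.2) := fun c =>
    dsx Bool (Σ p, K2 κ κ' p) (K2 κ κ') (Equiv.refl _) (T2 c.1 c.2) ‖c‖ (norm_nonneg _)
      (fun p => by
        cases p
        · exact norm_snd_le c
        · exact norm_fst_le c)
  choose S hS1 hS2 using hex
  have huniq : ∀ (A B : Op (Σ p, K2 κ κ' p)) (T T' : ∀ p, Op (K2 κ κ' p)),
      IsDS (Equiv.refl _) A T → IsDS (Equiv.refl _) B T' → (∀ p, T p = T' p) → A = B :=
    fun A B T T' h h' => (dsa Bool _ (K2 κ κ') (Equiv.refl _) A B T T' h h').2.2.2.2.2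
  refine ⟨{ toFun := S, map_smul' := ?_, map_zero' := ?_, map_add' := ?_, map_mul' := ?_,
            map_star' := ?_ }, ?_, hS2⟩
  · intro r c
    refine huniq _ _ _ _ (hS2 (r • c))
      ((dsa Bool _ (K2 κ κ') (Equiv.refl _) _ _ _ _ (hS2 c) (hS2 c)).2.2.1 r) ?_
    intro p
    cases p <;> rfl
  · refine huniq _ _ _ _ (hS2 0)
      ((dsa Bool _ (K2 κ κ') (Equiv.refl _) _ _ _ _ (hS2 0) (hS2 0)).2.2.2.2.1) ?_
    intro p
    cases p <;> rfl
  · intro c d
    refine huniq _ _ _ _ (hS2 (c + d))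
      ((dsa Bool _ (K2 κ κ') (Equiv.refl _) _ _ _ _ (hS2 c) (hS2 d)).2.1) ?_
    intro p
    cases p <;> rfl
  · intro c d
    refine huniq _ _ _ _ (hS2 (c * d))
      ((dsa Bool _ (K2 κ κ') (Equiv.refl _) _ _ _ _ (hS2 c) (hS2 d)).1) ?_
    intro p
    cases p <;> rfl
  · intro c
    refine huniq _ _ _ _ (hS2 (star c))
      ((dsn Bool _ (K2 κ κ') (Equiv.refl _) _ _ (hS2 c)).1) ?_
    intro p
    cases p <;> rfl
  · intro c
    refine le_antisymm (hS1 c) ?_
    have h := (dsn Bool _ (K2 κ κ') (Equiv.refl _) _ _ (hS2 c)).2.1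
    exact max_le (h true) (h false)

/-- norm of a unitary -/
theorem norm_le_one_of_unitary {α : Type} {U : Op α} (h : U ∈ unitary (Op α)) : ‖U‖ ≤ 1 := by
  have h1 : star U * U = 1 := (Unitary.mem_iff.1 h).1
  have h2 : ‖U‖ * ‖U‖ = ‖(1 : Op α)‖ := by
    rw [← CStarRing.norm_star_mul_self, h1]
  have h3 : ‖(1 : Op α)‖ ≤ 1 := ContinuousLinearMap.norm_id_le
  nlinarith [norm_nonneg U]

/-- the closed *-subalgebra of the pairs -/
noncomputable def Cp (WW : Op (κ × ι)) (V : Op (κ' × ι)) :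
    NonUnitalStarSubalgebra ℂ (Op κ × Op κ') :=
  (NonUnitalStarAlgebra.adjoin ℂ
    {c : Op κ × Op κ' | ∃ u y, c = (sl WW u y, sl V u y)}).topologicalClosure

theorem isClosed_Cp (WW : Op (κ × ι)) (V : Op (κ' × ι)) :
    IsClosed (Cp WW V : Set (Op κ × Op κ')) :=
  NonUnitalStarSubalgebra.isClosed_topologicalClosure _

theorem mem_Cp (WW : Op (κ × ι)) (V : Op (κ' × ι)) (u y : L2 ι) :
    (sl WW u y, sl V u y) ∈ Cp WW V :=
  NonUnitalStarSubalgebra.le_topologicalClosure _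
    (NonUnitalStarAlgebra.subset_adjoin ℂ _ ⟨u, y, rfl⟩)

/-- the norm inequality on the algebra of pairs -/
theorem norm_Cp (dsx : DsxStmt) (dsa : DsaStmt) (dsn : DsnStmt) (dss : DssStmt) (dad : DadStmt)
    (asp : AspStmt) {M : MU ι} {WW : Op (κ × ι)} {V : Op (κ' × ι)}
    (hW : Adapted M.W WW) (hV : Adapted M.W V)
    (hn : ∀ (n : ℕ) (c : Fin n → ℂ) (u y : Fin n → L2 ι),
      ‖∑ j, c j • sl V (u j) (y j)‖ ≤ ‖∑ j, c j • sl WW (u j) (y j)‖)
    {c : Op κ × Op κ'} (hc : c ∈ Cp WW V) : ‖c.2‖ ≤ ‖c.1‖ := by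
  obtain ⟨Δ, hΔ1, hΔ2⟩ := exists_delta dsx dsa dsn κ κ'
  obtain ⟨S, _, hS⟩ := dsx Bool ((Σ p, K2 κ κ' p) × ι) (fun p => K2 κ κ' p × ι)
    (es (K2 κ κ')) (U2 WW V) 1 zero_le_one (fun p => by
      cases p
      · exact norm_le_one_of_unitary hV.unit
      · exact norm_le_one_of_unitary hW.unit)
  have hSad : Adapted M.W S := dad Bool ι M.W (K2 κ κ') S (U2 WW V) hS (fun p => by
    cases p
    · exact hV
    · exact hW)
  have hsl : ∀ u y, Δ (sl WW u y, sl V u y) = sl S u y := by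
    intro u y
    refine (dsa Bool _ (K2 κ κ') (Equiv.refl _) _ _ _ _ (hΔ2 (sl WW u y, sl V u y))
      (dss Bool ι (K2 κ κ') S (U2 WW V) hS u y)).2.2.2.2.2 ?_
    intro p
    cases p <;> rfl
  have hcont : Continuous Δ := by
    have : Isometry Δ := AddMonoidHomClass.isometry_of_norm Δ hΔ1
    exact this.continuous
  have hle : Cp WW V ≤ (Aalg S).comap Δ := by
    refine NonUnitalStarSubalgebra.topologicalClosure_minimal _ ?_ ?_
    · refine NonUnitalStarAlgebra.adjoin_le ?_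
      rintro _ ⟨u, y, rfl⟩
      change Δ (sl WW u y, sl V u y) ∈ Aalg S
      rw [hsl]
      exact sl_mem S u y
    · exact (isClosed_Aalg S).preimage hcont
  have hmem : Δ c ∈ closure (Submodule.span ℂ {T | ∃ u y, T = sl S u y} : Set (Op (Σ p, K2 κ κ' p))) :=
    asp ι M _ S hSad (Δ c) (hle hc)
  refine le_of_forall_pos_le_add fun ε hε => ?_
  obtain ⟨x, hx, hdx⟩ := Metric.mem_closure_iff.1 hmem (ε / 2) (half_pos hε)
  obtain ⟨n, f, g, rfl⟩ := Submodule.mem_span_set'.1 hx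
  choose u y hg using fun j => (g j).2
  set d : Op κ × Op κ' := ∑ j, f j • (sl WW (u j) (y j), sl V (u j) (y j)) with hd
  have hΔd : Δ d = ∑ j, f j • ((g j : Op (Σ p, K2 κ κ' p))) := by
    rw [hd, map_sum]
    refine Finset.sum_congr rfl fun j _ => ?_
    rw [map_smul, hsl, hg j]
  have h1 : ‖c - d‖ < ε / 2 := by
    rw [← hΔ1, map_sub, hΔd, ← dist_eq_norm]
    exact hdx
  have hd1 : d.1 = ∑ j, f j • sl WW (u j) (y j) := by
    rw [hd, Prod.fst_sum]
    rfl
  have hd2 : d.2 = ∑ j, f j • sl V (u j) (y j) := by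
    rw [hd, Prod.snd_sum]
    rfl
  have h2 : ‖d.2‖ ≤ ‖d.1‖ := by
    rw [hd1, hd2]
    exact hn n f u y
  have h3 : ‖c.2 - d.2‖ ≤ ‖c - d‖ := norm_snd_le (c - d)
  have h4 : ‖c.1 - d.1‖ ≤ ‖c - d‖ := norm_fst_le (c - d)
  have h5 : ‖c.2‖ ≤ ‖c.2 - d.2‖ + ‖d.2‖ := by
    simpa using norm_add_le (c.2 - d.2) d.2
  have h6 : ‖d.1‖ ≤ ‖c.1‖ + ‖c.1 - d.1‖ := by
    have := norm_sub_le c.1 (c.1 - d.1)
    simpa using this
  linarith

theorem exists_Cp {WW : Op (κ × ι)} {V : Op (κ' × ι)}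
    (hnorm : ∀ c ∈ Cp WW V, ‖c.2‖ ≤ ‖c.1‖) {a : Op κ} (ha : a ∈ Aalg WW) :
    ∃ b : Op κ', (a, b) ∈ Cp WW V := by
  -- the image of the algebra of pairs under the first projection
  let p1 : (Op κ × Op κ') →⋆ₙₐ[ℂ] Op κ := NonUnitalStarAlgHom.fst ℂ (Op κ) (Op κ')
  have hclosed : IsClosed ((Cp WW V).map p1 : Set (Op κ)) := by
    refine isClosed_of_closure_subset fun a ha => ?_
    obtain ⟨s, hs, hlim⟩ := mem_closure_iff_seq_limit.1 ha
    choose t ht using hs
    have hts : ∀ n, (t n).1 = s n := fun n => (ht n).2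
    have hcau : CauchySeq t := by
      refine Metric.cauchySeq_iff'.2 fun ε hε => ?_
      obtain ⟨N, hN⟩ := Metric.cauchySeq_iff'.1 hlim.cauchySeq ε hε
      refine ⟨N, fun n hn => ?_⟩
      have h1 := hnorm (t n - t N) (sub_mem (ht n).1 (ht N).1)
      have h2 : ‖(t n - t N).1‖ < ε := by
        have := hN n hn
        rw [dist_eq_norm, ← hts, ← hts] at this
        exact this
      rw [dist_eq_norm]
      exact lt_of_le_of_lt (max_le le_rfl h1) h2
    obtain ⟨c, hc⟩ := cauchySeq_tendsto_of_complete hcau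
    refine ⟨c, (isClosed_Cp WW V).mem_of_tendsto hc (Eventually.of_forall fun n => (ht n).1), ?_⟩
    have h1 : Tendsto (fun n => (t n).1) atTop (𝓝 c.1) :=
      (continuous_fst.tendsto c).comp hc
    have h2 : (fun n => (t n).1) = s := funext hts
    rw [h2] at h1
    exact tendsto_nhds_unique h1 hlim
  have hle : Aalg WW ≤ (Cp WW V).map p1 := by
    refine NonUnitalStarSubalgebra.topologicalClosure_minimal _ ?_ hclosed
    refine NonUnitalStarAlgebra.adjoin_le ?_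
    rintro _ ⟨u, y, rfl⟩
    exact ⟨(sl WW u y, sl V u y), mem_Cp WW V u y, rfl⟩
  obtain ⟨c, hc, hca⟩ := hle ha
  refine ⟨c.2, ?_⟩
  have : c = (a, c.2) := Prod.ext hca rfl
  rw [← this]
  exact hc

theorem lft (dsx : DsxStmt) (dsa : DsaStmt) (dsn : DsnStmt) (dss : DssStmt) (dad : DadStmt)
    (asp : AspStmt) : LftStmt := by
  intro ι M κ κ' WW V hW hV hn
  have hnorm : ∀ c ∈ Cp WW V, ‖c.2‖ ≤ ‖c.1‖ := fun c hc =>
    norm_Cp dsx dsa dsn dss dad asp hW hV hn hc
  have hex : ∀ a : Al WW, ∃ b : Op κ', (val a, b) ∈ Cp WW V := fun a =>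
    exists_Cp hnorm (val_mem a)
  choose p hp using hex
  have huniq : ∀ {a : Op κ} {b b' : Op κ'}, (a, b) ∈ Cp WW V → (a, b') ∈ Cp WW V → b = b' := by
    intro a b b' h h'
    have h1 := hnorm _ (sub_mem h h')
    have h2 : ‖b - b'‖ ≤ ‖a - a‖ := h1
    rw [sub_self, norm_zero] at h2
    exact sub_eq_zero.1 (norm_le_zero_iff.1 h2)
  refine ⟨{ toFun := p, map_smul' := ?_, map_zero' := ?_, map_add' := ?_, map_mul' := ?_,
            map_star' := ?_ }, ?_⟩
  · intro r a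
    have h1 : (r • val a, r • p a) ∈ Cp WW V := SMulMemClass.smul_mem r (hp a)
    have h2 := hp (r • a)
    rw [map_smul] at h2
    exact huniq h2 h1
  · have h1 : ((0 : Op κ), (0 : Op κ')) ∈ Cp WW V := zero_mem (Cp WW V)
    have h2 := hp 0
    rw [map_zero] at h2
    exact huniq h2 h1
  · intro a b
    have h1 : (val a + val b, p a + p b) ∈ Cp WW V := add_mem (hp a) (hp b)
    have h2 := hp (a + b)
    rw [map_add] at h2
    exact huniq h2 h1
  · intro a b
    have h1 : (val a * val b, p a * p b) ∈ Cp WW V := mul_mem (hp a) (hp b)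
    have h2 := hp (a * b)
    rw [map_mul] at h2
    exact huniq h2 h1
  · intro a
    have h1 : star ((val a, p a) : Op κ × Op κ') ∈ Cp WW V := star_mem (s := Cp WW V) (hp a)
    rw [Prod.star_def] at h1
    dsimp only at h1
    have h2 := hp (star a)
    rw [map_star] at h2
    exact huniq h2 h1
  · intro u y
    have h2 := hp (asl WW u y)
    rw [val_asl] at h2
    exact huniq h2 (mem_Cp WW V u y)

end Pool.Agent.MQG.H55
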