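import Pool.Agent.MQG.StmtsA

/-!
# Squad MQG, row MUB: the multiplier property for `U*` and the slices of `U*`
-/

set_option autoImplicit false

namespace Pool.Agent.MQG.H55

open scoped InnerProductSpace InnerProduct Topology ComplexConjugate
open Complex Filter

variable {α β γ κ ι : Type}

/-- `emb e` as a continuous linear map -/
noncomputable def embL (e : γ ≃ α × β) : L2 β →L[ℂ] L2 α →L[ℂ] L2 γ :=
  LinearMap.mkContinuous
    { toFun := fun g => emb e g
      map_add' := fun g h => emb_add e g h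
      map_smul' := fun r g => emb_smul e r g } 1 (fun g => by
        rw [one_mul]
        exact norm_emb_le e g)

theorem embL_apply (e : γ ≃ α × β) (g : L2 β) : embL e g = emb e g := rfl

/-- the operators `A ∘ emb e ζ` are in a closed subspace if they are for a total set -/
theorem comp_emb_mem {X : Set (L2 β)} (hX : Total X) (e : γ ≃ α × β) {F : Type*}
    [NormedAddCommGroup F] [NormedSpace ℂ F] (A : L2 γ →L[ℂ] F) (S : Submodule ℂ (L2 α →L[ℂ] F))
    (hS : IsClosed (S : Set (L2 α →L[ℂ] F))) (h : ∀ ζ ∈ X, A ∘L emb e ζ ∈ S) (ζ : L2 β) :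
    A ∘L emb e ζ ∈ S := by
  let R : L2 β →L[ℂ] (L2 α →L[ℂ] F) := (ContinuousLinearMap.compL ℂ (L2 α) (L2 γ) F A) ∘L embL e
  exact hX.mem_of_closed (S.comap (R : L2 β →ₗ[ℂ] (L2 α →L[ℂ] F))) (hS.preimage R.continuous)
    (fun ζ hζ => h ζ hζ) ζ

/-- the closed subspace `Aalg U` -/
theorem slhat_mem {M : MU ι} {U Uh : Op (κ × ι)} (hh : IsHat M.V U Uh) (u y : L2 ι) :
    sl Uh u y ∈ Aalg U := by
  have ht := total_star (total_traj M.V_group 0)
  refine sl_mem_of_total ht ht Uh (Aalg U).toSubmodule (isClosed_Aalg U) ?_ u y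
  rintro _ ⟨_, ⟨f, hf, rfl⟩, rfl⟩ _ ⟨_, ⟨g, hg, rfl⟩, rfl⟩
  rw [hh.sl hf hg, ← star_sl]
  exact star_mem (s := Aalg U) (sl_mem U _ _)

theorem isClosed_Cols (U : Op (κ × ι)) : IsClosed (Cols U : Set (L2 κ →L[ℂ] L2 (κ × ι))) :=
  Submodule.isClosed_topologicalClosure _

theorem col_mem (U : Op (κ × ι)) {a : Op κ} (ha : a ∈ Aalg U) (h : L2 ι) : col a h ∈ Cols U :=
  Submodule.le_topologicalClosure _ (Submodule.subset_span ⟨a, ha, h, rfl⟩)

/-- `(s in leg 2)* T₁₂ (1 ⊗ p ⊗ q) = col (sl T s p) q` -/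
theorem adj_e13_l12_emb (T : Op (κ × ι)) (s p q : L2 ι) :
    (((emb (e13 : κ × ι × ι ≃ _) s)†) ∘L l12 T) ∘L emb (Equiv.refl (κ × ι × ι)) (tn p q) =
      col (sl T s p) q := by
  ext k : 1
  change ((emb (e13 : κ × ι × ι ≃ _) s)†) (l12 T (tn k (tn p q))) = tn (sl T s p k) q
  rw [l12_tn, adj_e13_tl_e12]
  rfl

theorem mub (ttb : TtbStmt) : MubStmt := by
  intro ι M κ U Uh hU hh g b h hg hb
  -- the adjoint of the adapted equation
  have hW := (Unitary.mem_iff.1 (l23_unitary (α := κ) M.W_unitary)).2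
  have key : (l13 (star U) * l12 (star U) : Op (κ × ι × ι)) =
      l23 M.W * star (l12 U) * l23 (star M.W) := by
    have h1 : (l12 U * l13 U : Op (κ × ι × ι)) = l23 M.W * l12 U * star (l23 M.W) := by
      rw [← hU.eq, mul_assoc, hW, mul_one]
    have h2 := congrArg star h1
    rw [star_mul, star_mul, star_mul, star_star, ← l12_star, ← l13_star] at h2
    rw [h2, l12_star, l23_star, mul_assoc]
  set A : L2 (κ × ι × ι) →L[ℂ] L2 (κ × ι) :=
    ((emb (e13 : κ × ι × ι ≃ _) (g 0))†) ∘L (l23 M.W * star (l12 U)) with hA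
  have h1 : star U ∘L col (sl (star U) (g 0) (b 0)) h =
      A ∘L emb (Equiv.refl (κ × ι × ι)) (star M.W (tn (b 0) h)) := by
    ext k : 1
    have e1 : col (sl (star U) (g 0) (b 0)) h k =
        ((emb (e13 : κ × ι × ι ≃ _) (g 0))†) (l12 (star U) (tn k (tn (b 0) h))) := by
      rw [l12_tn, adj_e13_tl_e12]
      rfl
    have e2 : star U (((emb (e13 : κ × ι × ι ≃ _) (g 0))†) (l12 (star U) (tn k (tn (b 0) h)))) =
        ((emb (e13 : κ × ι × ι ≃ _) (g 0))†) (l13 (star U) (l12 (star U) (tn k (tn (b 0) h)))) :=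
      (DFunLike.congr_fun (adj_e13_l13 (star U) (g 0)) (l12 (star U) (tn k (tn (b 0) h)))).symm
    have e3 : l13 (star U) (l12 (star U) (tn k (tn (b 0) h))) =
        (l23 M.W * star (l12 U) : Op (κ × ι × ι)) (tn k (star M.W (tn (b 0) h))) := by
      have := DFunLike.congr_fun key (tn k (tn (b 0) h))
      rw [mul_apply_eq_comp, mul_apply_eq_comp, l23_tn'] at this
      exact this
    rw [ContinuousLinearMap.comp_apply, e1, e2, e3]
    rfl
  rw [h1]
  refine comp_emb_mem (Total.tn (total_traj M.V_group 0) total_univ) (Equiv.refl (κ × ι × ι)) A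
    (Cols U) (isClosed_Cols U) ?_ _
  rintro _ ⟨_, ⟨b', hb', rfl⟩, h', -, rfl⟩
  set s : L2 ι := star (b' (-(I / 2))) with hs
  have h2 : A ∘L emb (Equiv.refl (κ × ι × ι)) (tn (b' 0) h') =
      (((emb (e13 : κ × ι × ι ≃ _) s)†) ∘L l12 Uh) ∘L
        emb (Equiv.refl (κ × ι × ι)) (M.Wt (tn (star (g (I / 2))) h')) := by
    ext z : 1
    refine ext_inner_left ℂ fun χ => ?_
    have h3 := ttb ι M κ U Uh hh χ z (fun w => b' (w + -(I / 2))) (fun w => g (w + I / 2)) h'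
      (hb'.shift M.V_group _) (hg.shift M.V_group _)
    have a1 : (0 : ℂ) + -(I / 2) = -(I / 2) := by ring
    have a2 : (0 : ℂ) + I / 2 = I / 2 := by ring
    have a3 : (-(I / 2) : ℂ) + I / 2 = 0 := by ring
    have a4 : (I / 2 : ℂ) + -(I / 2) = 0 := by ring
    simp only [a1, a2, a3, a4] at h3
    have l1 : ⟪χ, (A ∘L emb (Equiv.refl (κ × ι × ι)) (tn (b' 0) h')) z⟫_ℂ =
        ⟪tl e13 χ (g 0), l23 M.W (star (l12 U) (tn z (tn (b' 0) h')))⟫_ℂ := by
      rw [← inner_emb_adj]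
      rfl
    have l2 : ⟪χ, ((((emb (e13 : κ × ι × ι ≃ _) s)†) ∘L l12 Uh) ∘L
        emb (Equiv.refl (κ × ι × ι)) (M.Wt (tn (star (g (I / 2))) h'))) z⟫_ℂ =
        ⟪tl e13 χ s, l12 Uh (l23 M.Wt (tn z (tn (star (g (I / 2))) h')))⟫_ℂ := by
      rw [← inner_emb_adj, l23_tn']
      rfl
    rw [l1, l2, hs]
    exact h3.symm
  rw [h2]
  refine comp_emb_mem total_tn (Equiv.refl (κ × ι × ι)) _ (Cols U) (isClosed_Cols U) ?_ _
  rintro _ ⟨p, q, rfl⟩
  rw [adj_e13_l12_emb]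
  exact col_mem U (slhat_mem hh s p) q

end Pool.Agent.MQG.H55
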